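import Pool.Agent.Helper54.SRD.Basic

/-!
# Packet SRD-RCH: algebra of `Reach`
-/

open Set Filter MeasureTheory
open scoped Manifold ContDiff Topology

noncomputable section

namespace Pool.Agent.Helper85.SRD

open Pool.Agent.Helper54.SRD

variable {E : Type*} [NormedAddCommGroup E] [NormedSpace ℝ E] [FiniteDimensional ℝ E]
variable {M : Type*} [TopologicalSpace M] [ChartedSpace E M] [IsManifold 𝓘(ℝ, E) ∞ M]

/-- Clamping a curve to an interval keeps the speed bound. -/
theorem clamp (hO : S_OPS E M) (G : AMetric E M) (c : ℝ) (γ : ℝ → M) (a b : ℝ) (hc : 0 ≤ c)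
    (hab : a ≤ b) (h : ∀ t ∈ Icc a b, SpeedLE G c γ t) :
    ∀ t, SpeedLE G c (fun s => γ (max a (min s b))) t := by
  obtain ⟨_, _, h3, h4, h5⟩ := hO G
  have k1 : ∀ t, t ≤ b → SpeedLE G c (fun s => if s ≤ a then γ a else γ s) t := by
    intro t ht
    rcases lt_trichotomy t a with h' | h' | h'
    · refine h3 c (fun _ => γ a) _ t ?_ (h5 c (γ a) t hc)
      filter_upwards [Iio_mem_nhds h'] with s hs
      rw [if_pos (le_of_lt hs)]
    · subst h'
      exact h4 c (fun _ => γ t) γ t hc rfl (h5 c (γ t) t hc) (h t ⟨le_refl t, ht⟩)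
    · refine h3 c γ _ t ?_ (h t ⟨le_of_lt h', ht⟩)
      filter_upwards [Ioi_mem_nhds h'] with s hs
      rw [if_neg (not_le.mpr hs)]
  have k2 : ∀ t, SpeedLE G c
      (fun s => if s ≤ b then (fun s => if s ≤ a then γ a else γ s) s else (fun _ => γ b) s) t := by
    intro t
    rcases lt_trichotomy t b with h' | h' | h'
    · refine h3 c (fun s => if s ≤ a then γ a else γ s) _ t ?_ (k1 t (le_of_lt h'))
      filter_upwards [Iio_mem_nhds h'] with s hs
      have hs' : s ≤ b := le_of_lt hs
      exact (if_pos hs').symm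
    · subst h'
      refine h4 c (fun s => if s ≤ a then γ a else γ s) (fun _ => γ t) t hc ?_ (k1 t (le_refl t))
        (h5 c (γ t) t hc)
      show (if t ≤ a then γ a else γ t) = γ t
      split_ifs with h''
      · rw [le_antisymm hab h'']
      · rfl
    · refine h3 c (fun _ => γ b) _ t ?_ (h5 c (γ b) t hc)
      filter_upwards [Ioi_mem_nhds h'] with s hs
      rw [if_neg (not_le.mpr hs)]
  have hfun : (fun s => γ (max a (min s b))) =
      (fun s => if s ≤ b then (fun s => if s ≤ a then γ a else γ s) s else (fun _ => γ b) s) := by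
    funext s
    show γ (max a (min s b)) = if s ≤ b then (if s ≤ a then γ a else γ s) else γ b
    split_ifs with h1 h2
    · rw [min_eq_left h1, max_eq_left h2]
    · rw [min_eq_left h1, max_eq_right (le_of_lt (not_le.mp h2))]
    · rw [min_eq_right (le_of_lt (not_le.mp h1)), max_eq_right hab]
  rw [hfun]
  exact k2

theorem pkRCH (hO : S_OPS E M) : S_RCH E M := by
  intro G
  obtain ⟨h1, h2, h3, h4, h5⟩ := hO G
  refine ⟨?_, ?_, ?_, ?_, ?_⟩
  · intro x
    exact ⟨le_refl 0, fun _ => x, fun t => h5 1 x t zero_le_one, rfl, rfl⟩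
  · rintro x y L ⟨hL, γ, hγ, hx, hy⟩
    refine ⟨hL, fun s => γ ((-1) * s + L), fun t => ?_, ?_, ?_⟩
    · have := h2 1 (-1) L γ t zero_le_one (hγ _)
      simpa using this
    · show γ ((-1) * 0 + L) = y
      rw [← hy]
      congr 1
      ring
    · show γ ((-1) * L + L) = x
      rw [← hx]
      congr 1
      ring
  · rintro x y z L L' ⟨hL, γ, hγ, hx, hy⟩ ⟨hL', γ', hγ', hy', hz⟩
    have hsh : ∀ t, SpeedLE G 1 (fun s => γ' (1 * s + (-L))) t := by
      intro t
      have := h2 1 1 (-L) γ' t zero_le_one (hγ' _)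
      simpa using this
    refine ⟨add_nonneg hL hL', fun s => if s ≤ L then γ s else (fun s => γ' (1 * s + (-L))) s,
      fun t => ?_, ?_, ?_⟩
    · rcases lt_trichotomy t L with h' | h' | h'
      · refine h3 1 γ _ t ?_ (hγ t)
        filter_upwards [Iio_mem_nhds h'] with s hs
        rw [if_pos (le_of_lt hs)]
      · subst h'
        refine h4 1 γ (fun s => γ' (1 * s + (-t))) t zero_le_one ?_ (hγ t) (hsh t)
        show γ t = γ' (1 * t + (-t))
        rw [hy, ← hy']
        congr 1
        ring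
      · refine h3 1 (fun s => γ' (1 * s + (-L))) _ t ?_ (hsh t)
        filter_upwards [Ioi_mem_nhds h'] with s hs
        rw [if_neg (not_le.mpr hs)]
    · show (if (0 : ℝ) ≤ L then γ 0 else γ' (1 * 0 + (-L))) = x
      rw [if_pos hL, hx]
    · show (if L + L' ≤ L then γ (L + L') else γ' (1 * (L + L') + (-L))) = z
      split_ifs with h'
      · have h0 : L' = 0 := by linarith
        subst h0
        rw [add_zero, hy, ← hy', hz]
      · rw [← hz]
        congr 1
        ring
  · rintro x y L L' ⟨hL, γ, hγ, hx, hy⟩ hLL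
    refine ⟨hL.trans hLL, fun s => γ (max 0 (min s L)),
      clamp hO G 1 γ 0 L zero_le_one hL (fun t _ => hγ t), ?_, ?_⟩
    · show γ (max 0 (min 0 L)) = x
      rw [min_eq_left hL, max_self, hx]
    · show γ (max 0 (min L' L)) = y
      rw [min_eq_right hLL, max_eq_right hL, hy]
  · intro c γ a b hc hab hγ
    have hk := clamp hO G c γ a b hc.le hab hγ
    refine ⟨mul_nonneg hc.le (sub_nonneg.mpr hab),
      fun s => (fun s => γ (max a (min s b))) (c⁻¹ * s + a), fun t => ?_, ?_, ?_⟩
    · have := h2 c c⁻¹ a (fun s => γ (max a (min s b))) t hc.le (hk _)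
      rw [abs_of_pos (inv_pos.mpr hc), inv_mul_cancel₀ hc.ne'] at this
      exact this
    · show γ (max a (min (c⁻¹ * 0 + a) b)) = γ a
      rw [mul_zero, zero_add, min_eq_left hab, max_self]
    · show γ (max a (min (c⁻¹ * (c * (b - a)) + a) b)) = γ b
      rw [← mul_assoc, inv_mul_cancel₀ hc.ne', one_mul, sub_add_cancel, min_self,
        max_eq_right hab]

/-- RCH, with explicit arguments; `S_OPS` is the input. -/
theorem RCH (E : Type*) [NormedAddCommGroup E] [NormedSpace ℝ E] [FiniteDimensional ℝ E]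
    (M : Type*) [TopologicalSpace M] [ChartedSpace E M] [IsManifold 𝓘(ℝ, E) ∞ M]
    (hO : S_OPS E M) : S_RCH E M := pkRCH hO

end Pool.Agent.Helper85.SRD
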